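import Pool.Agent.TFJ.Stmts

set_option autoImplicit false

/-!
# Row TWB of squad TFJ (helper1): the trace of a twisted group algebra at a conjugacy class
-/

namespace Pool.Agent.TFJ.H1

open Pool.Agent.TFJ
open scoped BigOperators

section
variable {F G S : Type} [Field F] [Group G] [Ring S] [Algebra F S] {α : G → G → Fˣ} {u : G → S}

theorem comm_mem (x y : S) : x * y - y * x ∈ Comm S :=
  AddSubgroup.subset_closure ⟨x, y, rfl⟩

theorem u_inv (hT : Twisted α u) (s : G) : ∃ v : S, u s * v = 1 ∧ v * u s = 1 := by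
  have h1 : u s * ((((α s s⁻¹)⁻¹ : Fˣ) : F) • u s⁻¹) = 1 := by
    rw [mul_smul_comm, hT.mul, smul_smul, ← Units.val_mul, inv_mul_cancel, Units.val_one, one_smul,
      mul_inv_cancel, hT.one]
  have h2 : ((((α s⁻¹ s)⁻¹ : Fˣ) : F) • u s⁻¹) * u s = 1 := by
    rw [smul_mul_assoc, hT.mul, smul_smul, ← Units.val_mul, inv_mul_cancel, Units.val_one, one_smul,
      inv_mul_cancel, hT.one]
  have h3 := left_inv_eq_right_inv h2 h1
  exact ⟨_, h1, by rw [← h3]; exact h2⟩

theorem u_mul_ne (hT : Twisted α u) (s t : G) : u s * u t ≠ 0 := by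
  intro h
  rw [hT.mul, smul_eq_zero] at h
  rcases h with h | h
  · exact (α s t).ne_zero h
  · exact hT.indep.ne_zero _ h

/-- `theta` -/
noncomputable def th (α : G → G → Fˣ) (g₀ s : G) : Fˣ := α s g₀ * (α (s * g₀ * s⁻¹) s)⁻¹

theorem th_eq (hT : Twisted α u) (g₀ s : G) :
    u s * u g₀ = (th α g₀ s : F) • (u (s * g₀ * s⁻¹) * u s) := by
  have h1 : (s * g₀ * s⁻¹) * s = s * g₀ := by group
  rw [hT.mul, hT.mul, h1, smul_smul, th, ← Units.val_mul, mul_assoc, inv_mul_cancel, mul_one]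

theorem conj_comm (hT : Twisted α u) (g₀ s : G) (a : F) :
    (a * (th α g₀ s : F)) • u (s * g₀ * s⁻¹) - a • u g₀ ∈ Comm S := by
  obtain ⟨v, h1, h2⟩ := u_inv hT s
  have h3 := comm_mem (a • (u s * u g₀)) v
  have h4 : (a • (u s * u g₀)) * v = (a * (th α g₀ s : F)) • u (s * g₀ * s⁻¹) := by
    rw [th_eq hT, smul_smul, smul_mul_assoc, mul_assoc, h1, mul_one]
  have h5 : v * (a • (u s * u g₀)) = a • u g₀ := by
    rw [mul_smul_comm, ← mul_assoc, h2, one_mul]
  rwa [h4, h5] at h3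

theorem th_congr (hT : Twisted α u) (g₀ : G)
    (h1 : ∀ t, t * g₀ * t⁻¹ = g₀ → th α g₀ t = 1) (s s' : G)
    (h : s * g₀ * s⁻¹ = s' * g₀ * s'⁻¹) : th α g₀ s = th α g₀ s' := by
  have ht : (s⁻¹ * s') * g₀ * (s⁻¹ * s')⁻¹ = g₀ := by
    have : (s⁻¹ * s') * g₀ * (s⁻¹ * s')⁻¹ = s⁻¹ * (s' * g₀ * s'⁻¹) * s := by group
    rw [this, ← h]; group
  have e1 := th_eq hT g₀ (s⁻¹ * s')
  rw [h1 _ ht, ht, Units.val_one, one_smul] at e1
  have e2 : u s * u (s⁻¹ * s') = (α s (s⁻¹ * s') : F) • u s' := by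
    rw [hT.mul, mul_inv_cancel_left]
  have e3 : (α s (s⁻¹ * s') : F) • (u s' * u g₀) =
      (α s (s⁻¹ * s') : F) • ((th α g₀ s : F) • (u (s * g₀ * s⁻¹) * u s')) := by
    rw [← smul_mul_assoc, ← e2, mul_assoc, e1, ← mul_assoc, th_eq hT g₀ s, smul_mul_assoc, mul_assoc,
      e2, mul_smul_comm, smul_comm]
  have e4 := smul_right_injective S (α s (s⁻¹ * s')).ne_zero e3
  rw [th_eq hT g₀ s', ← h] at e4
  have e5 : ((th α g₀ s' : F) - (th α g₀ s : F)) • (u (s * g₀ * s⁻¹) * u s') = 0 := by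
    rw [sub_smul, e4, sub_self]
  rcases smul_eq_zero.1 e5 with e6 | e6
  · exact Units.ext (sub_eq_zero.1 e6).symm
  · exact absurd e6 (u_mul_ne hT _ _)

theorem th_swap (hT : Twisted α u) (g₀ : G) (a b s : G) (h : s * g₀ * s⁻¹ = a * b) :
    (α a b : F) * (th α g₀ (a⁻¹ * s) : F) = (α b a : F) * (th α g₀ s : F) := by
  have h' : (a⁻¹ * s) * g₀ * (a⁻¹ * s)⁻¹ = b * a := by
    have : (a⁻¹ * s) * g₀ * (a⁻¹ * s)⁻¹ = a⁻¹ * (s * g₀ * s⁻¹) * a := by group
    rw [this, h]; group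
  have e1 := th_eq hT g₀ s
  have e2 := th_eq hT g₀ (a⁻¹ * s)
  rw [h] at e1
  rw [h'] at e2
  have e3 : u a * u (a⁻¹ * s) = (α a (a⁻¹ * s) : F) • u s := by
    rw [hT.mul, mul_inv_cancel_left]
  have e4 : (α b a : F) • (u a * u (b * a)) = (α a b : F) • (u (a * b) * u a) := by
    rw [← mul_smul_comm, ← hT.mul, ← mul_assoc, hT.mul a b, smul_mul_assoc]
  have e5 : (α b a : F) • (u a * (u (a⁻¹ * s) * u g₀)) =
      ((α b a : F) * ((α a (a⁻¹ * s) : F) * (th α g₀ s : F))) • (u (a * b) * u s) := by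
    rw [← mul_assoc, e3, smul_mul_assoc, e1, smul_smul, smul_smul, mul_assoc]
  have e6 : (α b a : F) • (u a * (u (a⁻¹ * s) * u g₀)) =
      ((α a b : F) * ((α a (a⁻¹ * s) : F) * (th α g₀ (a⁻¹ * s) : F))) • (u (a * b) * u s) := by
    rw [e2, mul_smul_comm, ← mul_assoc, smul_comm, ← smul_mul_assoc, e4, smul_mul_assoc, mul_assoc,
      e3, mul_smul_comm, smul_smul, smul_smul]
    congr 1
    ring
  rw [e5, ← sub_eq_zero, ← sub_smul] at e6
  rcases smul_eq_zero.1 e6 with e7 | e7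
  · have e8 : (α a (a⁻¹ * s) : F) * ((α b a : F) * (th α g₀ s : F) -
        (α a b : F) * (th α g₀ (a⁻¹ * s) : F)) = 0 := by
      rw [← e7]; ring
    rcases mul_eq_zero.1 e8 with e9 | e9
    · exact absurd e9 (α a (a⁻¹ * s)).ne_zero
    · exact (sub_eq_zero.1 e9).symm
  · exact absurd e7 (u_mul_ne hT _ _)

end

/-- row TWB -/
theorem twb : TwbStmt := by
  classical
  intro F G S _ _ _ _ α u hT g₀
  by_cases hc : ∀ t, t * g₀ * t⁻¹ = g₀ → th α g₀ t = 1
  · right
    have hsp : ⊤ ≤ Submodule.span F (Set.range u) := fun x _ => hT.span x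
    let b : Module.Basis G F S := Module.Basis.mk hT.indep hsp
    have hb : ∀ g, b g = u g := fun g => Module.Basis.mk_apply hT.indep hsp g
    let f : G → F := fun h => if H : IsConj g₀ h then
      (((th α g₀ (Classical.choose (isConj_iff.1 H)))⁻¹ : Fˣ) : F) else 0
    let ρ : S →ₗ[F] F := b.constr F f
    have hρ : ∀ g, ρ (u g) = f g := by
      intro g
      rw [← hb]
      exact b.constr_basis F f g
    have hf : ∀ s, f (s * g₀ * s⁻¹) = (((th α g₀ s)⁻¹ : Fˣ) : F) := by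
      intro s
      have H : IsConj g₀ (s * g₀ * s⁻¹) := isConj_iff.2 ⟨s, rfl⟩
      have h1 : f (s * g₀ * s⁻¹) =
          (((th α g₀ (Classical.choose (isConj_iff.1 H)))⁻¹ : Fˣ) : F) := dif_pos H
      rw [h1, th_congr hT g₀ hc _ s (Classical.choose_spec (isConj_iff.1 H))]
    have hf0 : ∀ h, ¬ IsConj g₀ h → f h = 0 := fun h H => dif_neg H
    refine ⟨ρ, ?_, ?_, ?_, ?_⟩
    · have key : ∀ a c : G, ρ (u a * u c) = ρ (u c * u a) := by
        intro a c
        rw [hT.mul, hT.mul, map_smul, map_smul, hρ, hρ, smul_eq_mul, smul_eq_mul]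
        by_cases H : IsConj g₀ (a * c)
        · obtain ⟨s, hs⟩ := isConj_iff.1 H
          have h2 := th_swap hT g₀ a c s hs
          have h' : (a⁻¹ * s) * g₀ * (a⁻¹ * s)⁻¹ = c * a := by
            have : (a⁻¹ * s) * g₀ * (a⁻¹ * s)⁻¹ = a⁻¹ * (s * g₀ * s⁻¹) * a := by group
            rw [this, hs]; group
          rw [← hs, ← h', hf, hf]
          rw [Units.val_inv_eq_inv_val, Units.val_inv_eq_inv_val, ← div_eq_mul_inv,
            ← div_eq_mul_inv, div_eq_div_iff (Units.ne_zero _) (Units.ne_zero _)]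
          exact h2
        · have H' : ¬ IsConj g₀ (c * a) := by
            intro h
            apply H
            refine h.trans (isConj_iff.2 ⟨a, ?_⟩)
            group
          rw [hf0 _ H, hf0 _ H', mul_zero, mul_zero]
      have hB : (LinearMap.mul F S).compr₂ ρ = ((LinearMap.mul F S).compr₂ ρ).flip := by
        refine b.ext fun a => b.ext fun c => ?_
        rw [hb, hb]
        simpa using key a c
      intro x y
      have h3 := LinearMap.congr_fun (LinearMap.congr_fun hB x) y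
      simpa using h3
    · intro h H
      rw [hρ, hf0 h H]
    · intro h H
      obtain ⟨s, hs⟩ := isConj_iff.1 H
      refine ⟨(th α g₀ s)⁻¹, ?_, ?_⟩
      · refine Subgroup.inv_mem _ ?_
        unfold th
        exact Subgroup.mul_mem _ (Subgroup.subset_closure ⟨(s, g₀), rfl⟩)
          (Subgroup.inv_mem _ (Subgroup.subset_closure ⟨(s * g₀ * s⁻¹, s), rfl⟩))
      · rw [hρ, ← hs, hf]
    · intro a ha h0
      have h1 : (a.sum fun h y => y • u h) - (ρ (a.sum fun h y => y • u h)) • u g₀ ∈ Comm S := by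
        rw [Finsupp.sum, map_sum, Finset.sum_smul, ← Finset.sum_sub_distrib]
        refine AddSubgroup.sum_mem _ fun h hh => ?_
        have H : IsConj g₀ h := by
          by_contra H
          exact Finsupp.mem_support_iff.1 hh (ha h H)
        obtain ⟨s, hs⟩ := isConj_iff.1 H
        have h2 := conj_comm hT g₀ s (a h * (((th α g₀ s)⁻¹ : Fˣ) : F))
        rw [mul_assoc, ← Units.val_mul, inv_mul_cancel, Units.val_one, mul_one, hs] at h2
        rw [map_smul, hρ, smul_eq_mul, ← hs, hf, hs]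
        exact h2
      rw [h0, zero_smul, sub_zero] at h1
      exact h1
  · left
    push Not at hc
    obtain ⟨t, ht, hne⟩ := hc
    have hd : ((th α g₀ t : F) - 1) ≠ 0 := by
      intro h
      exact hne (Units.ext (sub_eq_zero.1 h))
    have h1 : ∀ a : F, a • u g₀ ∈ Comm S := by
      intro a
      have h2 := conj_comm hT g₀ t (a / ((th α g₀ t : F) - 1))
      rw [ht, ← sub_smul] at h2
      have h3 : a / ((th α g₀ t : F) - 1) * (th α g₀ t : F) - a / ((th α g₀ t : F) - 1) = a := by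
        field_simp
      rwa [h3] at h2
    intro a h H
    obtain ⟨s, hs⟩ := isConj_iff.1 H
    have h2 := conj_comm hT g₀ s (a * (((th α g₀ s)⁻¹ : Fˣ) : F))
    rw [mul_assoc, ← Units.val_mul, inv_mul_cancel, Units.val_one, mul_one, hs] at h2
    have h3 := AddSubgroup.add_mem _ h2 (h1 (a * (((th α g₀ s)⁻¹ : Fˣ) : F)))
    rwa [sub_add_cancel] at h3

end Pool.Agent.TFJ.H1
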