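import Pool.Agent.TFJ.Stmts

set_option autoImplicit false

/-!
# Composition of squad TFJ (helper1)
-/

namespace Pool.Agent.TFJ.H1

open Pool.Agent.TFJ
open scoped BigOperators

theorem comp (roo : RooStmt) (fin : FinStmt) (twc : TwcStmt)
    (G E : Type) [Group G] [MetricSpace E] [MulAction G E] (hE : InjAction G E) (g₀ : G)
    (hg : ∀ n : ℕ, 1 ≤ n → g₀ ^ n ≠ 1) :
    (∀ (S : Type) [Ring S] (A : G → AddSubgroup S), Graded A →
      ∀ (n : ℕ) (e : Matrix (Fin n) (Fin n) S) (c : G →₀ S), e * e = e → (∀ g, c g ∈ A g) →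
        (c.sum fun _ z => z) = Matrix.trace e →
          (∀ N : ℕ, 1 ≤ N → ∃ s : S, clPart g₀ c - N • s ∈ Comm S) ∧
          ∀ m : ℕ, 1 ≤ m → (∀ s : S, m • s = 0) → clPart g₀ c ∈ Comm S) ∧
    ∀ (F S : Type) [Field F] [CharZero F] [Ring S] [Algebra F S] (α : G → G → Fˣ) (u : G → S)
      (Y : Finset Fˣ), Twisted α u → (∀ g h, α g h ∈ Subgroup.closure (Y : Set Fˣ)) →
      ∀ (n : ℕ) (e : Matrix (Fin n) (Fin n) S) (a : G →₀ F), e * e = e →
        Matrix.trace e = (a.sum fun h y => y • u h) →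
          open Classical in
          ∑ h ∈ a.support.filter (fun h => IsConj g₀ h), a h • u h ∈ Comm S := by
  have hfew := roo G E hE g₀ hg
  refine ⟨?_, ?_⟩
  · intro S _ A hA n e c he hc htr
    have h1 : ∀ N : ℕ, 1 ≤ N → ∃ s : S, clPart g₀ c - N • s ∈ Comm S :=
      fun N hN => fin G S A hA n e c g₀ he hc htr hfew N hN
    refine ⟨h1, fun m hm hs => ?_⟩
    obtain ⟨s, h2⟩ := h1 m hm
    rwa [hs, sub_zero] at h2
  · intro F S _ _ _ _ α u Y hT hα n e a he htr
    exact twc F G S α u Y hT hα n e a g₀ he htr hfew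

end Pool.Agent.TFJ.H1
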